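import Pool.Agent.Helper70.EC.St

set_option autoImplicit false

namespace Pool.Agent.Helper67.EC

open Finset
open scoped LinearAlgebra.Projectivization
open Pool.Agent.Helper70.EC
open Pool.Agent.Helper1.PFS (G uu mm cor inf' pt pt_inj)

section

variable {p : ℕ} [Fact p.Prime]

lemma pt_ne_inf (τ : ZMod p) : pt τ ≠ Pool.Agent.Helper1.PFS.inf' p := by
  intro h
  unfold pt Pool.Agent.Helper1.PFS.inf' at h
  rw [Projectivization.mk_eq_mk_iff'] at h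
  obtain ⟨a, ha⟩ := h
  have := congrFun ha 1
  simp at this

open Classical in
/-- the bad pairs for `τ₁ ↦ τ₂` -/
lemma card_line (hBP : StBP) {x y x' y' : Pt p} (hx : x ≠ x') (hy : y ≠ y') :
    (univ.filter (fun q : (ZMod p)ˣ × ZMod p => bp x y q.1 q.2 • x' = y')).card ≤ p - 1 := by
  obtain ⟨-, -, -, -, -, h6⟩ := hBP p x y
  have h1 : (univ.filter (fun q : (ZMod p)ˣ × ZMod p => bp x y q.1 q.2 • x' = y')).card ≤
      (univ : Finset (ZMod p)ˣ).card := by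
    refine Finset.card_le_card_of_injOn Prod.fst (fun _ _ => Finset.mem_coe.mpr (mem_univ _)) ?_
    rintro ⟨c, s⟩ hq ⟨c', s'⟩ hq' hcc
    simp only [coe_filter, mem_univ, true_and, Set.mem_ofPred_eq] at hq hq' hcc
    subst hcc
    rw [h6 x' y' hx hy c s s' hq hq']
  rwa [card_univ, ZMod.card_units_eq_totient, Nat.totient_prime Fact.out] at h1

open Classical in
lemma fibre (hBP : StBP) (Θ : Finset (Pt p)) (a : Pt p) (ha : a ∉ Θ) (τ : Pt p) (hτ : τ ∈ Θ) :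
    (p - 1) * p ≤ (univ.filter (fun g : G p => (g • a ∈ Θ ∧ ∀ σ ∈ Θ, g • σ ∉ Θ) ∧ g • a = τ)).card
      + Θ.card * ((Θ.card - 1) * (p - 1)) := by
  obtain ⟨h1, h2, -, -, -, -⟩ := hBP p a τ
  have hbp : ∀ q : (ZMod p)ˣ × ZMod p, bp a τ q.1 q.2 • a = τ := fun q => (h1 _).2 ⟨_, _, rfl⟩
  set B : Finset ((ZMod p)ˣ × ZMod p) := Θ.biUnion (fun σ => (Θ.erase τ).biUnion
    (fun ρ => univ.filter (fun q : (ZMod p)ˣ × ZMod p => bp a τ q.1 q.2 • σ = ρ))) with hB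
  have hBc : B.card ≤ Θ.card * ((Θ.card - 1) * (p - 1)) := by
    refine Finset.card_biUnion_le_card_mul _ _ _ fun σ hσ => ?_
    have hc : (Θ.erase τ).card = Θ.card - 1 := Finset.card_erase_of_mem hτ
    rw [← hc]
    refine Finset.card_biUnion_le_card_mul _ _ _ fun ρ hρ => ?_
    have hρτ : ρ ≠ τ := (Finset.mem_erase.mp hρ).1
    refine card_line hBP ?_ (Ne.symm hρτ)
    rintro rfl
    exact ha hσ
  have hgood : ∀ q ∈ (univ : Finset ((ZMod p)ˣ × ZMod p)) \ B,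
      bp a τ q.1 q.2 ∈ univ.filter
        (fun g : G p => (g • a ∈ Θ ∧ ∀ σ ∈ Θ, g • σ ∉ Θ) ∧ g • a = τ) := by
    intro q hq
    rw [mem_sdiff] at hq
    rw [mem_filter]
    refine ⟨mem_univ _, ⟨?_, ?_⟩, hbp q⟩
    · rw [hbp q]; exact hτ
    · intro σ hσ hσ2
      apply hq.2
      rw [hB, mem_biUnion]
      refine ⟨σ, hσ, ?_⟩
      rw [mem_biUnion]
      refine ⟨bp a τ q.1 q.2 • σ, ?_, ?_⟩
      · rw [mem_erase]
        refine ⟨?_, hσ2⟩
        intro he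
        have : bp a τ q.1 q.2 • σ = bp a τ q.1 q.2 • a := by rw [he, hbp q]
        have := MulAction.injective (bp a τ q.1 q.2) this
        exact ha (this ▸ hσ)
      · rw [mem_filter]
        exact ⟨mem_univ _, rfl⟩
  have hinj : ((univ : Finset ((ZMod p)ˣ × ZMod p)) \ B).card ≤
      (univ.filter (fun g : G p => (g • a ∈ Θ ∧ ∀ σ ∈ Θ, g • σ ∉ Θ) ∧ g • a = τ)).card := by
    refine Finset.card_le_card_of_injOn (fun q => bp a τ q.1 q.2) hgood ?_
    rintro ⟨c, s⟩ - ⟨c', s'⟩ - h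
    obtain ⟨hc, hs⟩ := h2 c s c' s' h
    rw [hc, hs]
  have hcard : (univ : Finset ((ZMod p)ˣ × ZMod p)).card = (p - 1) * p := by
    rw [card_univ, Fintype.card_prod, ZMod.card, ZMod.card_units_eq_totient,
      Nat.totient_prime Fact.out]
  have h3 := Finset.le_card_sdiff B (univ : Finset ((ZMod p)ˣ × ZMod p))
  rw [hcard] at h3
  omega

end

theorem hT3 (hBP : StBP) : StT3 := by
  intro p hp
  classical
  have hp2 : 2 ≤ p := (Fact.out : p.Prime).two_le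
  have hpR : (2 : ℝ) ≤ p := by exact_mod_cast hp2
  set a : Pt p := Pool.Agent.Helper1.PFS.inf' p with hadef
  set t : ℕ := max 1 ⌊Real.sqrt p / 2⌋₊ with ht
  have hsq : Real.sqrt p ^ 2 = p := Real.sq_sqrt (by positivity)
  have hsq0 : 0 < Real.sqrt p := Real.sqrt_pos.mpr (by linarith)
  have hfl : (⌊Real.sqrt p / 2⌋₊ : ℝ) ≤ Real.sqrt p / 2 := Nat.floor_le (by positivity)
  have hsqp : Real.sqrt p ≤ p := by nlinarith [Real.one_le_sqrt.mpr (by linarith : (1 : ℝ) ≤ p)]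
  have htp : t ≤ p := by
    apply max_le (by omega)
    have : (⌊Real.sqrt p / 2⌋₊ : ℝ) ≤ (p : ℝ) := by linarith
    exact_mod_cast this
  have ht1 : 1 ≤ t := le_max_left _ _
  -- `t (t-1) ≤ p/4`
  have htt : (t : ℝ) * ((t : ℝ) - 1) ≤ p / 4 := by
    rcases le_total ⌊Real.sqrt p / 2⌋₊ 1 with h | h
    · have : t = 1 := by rw [ht]; exact max_eq_left h
      rw [this]; norm_num
      try positivity
    · have h' : t = ⌊Real.sqrt p / 2⌋₊ := by rw [ht]; exact max_eq_right h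
      have h2 : (t : ℝ) ≤ Real.sqrt p / 2 := by rw [h']; exact hfl
      have h3 : (1 : ℝ) ≤ t := by exact_mod_cast ht1
      nlinarith
  -- `t ≥ √p/4`
  have ht4 : Real.sqrt p / 4 ≤ t := by
    have h3 : (1 : ℝ) ≤ t := by exact_mod_cast ht1
    have h4 : (⌊Real.sqrt p / 2⌋₊ : ℝ) ≤ t := by exact_mod_cast le_max_right _ _
    have h5 : Real.sqrt p / 2 < ⌊Real.sqrt p / 2⌋₊ + 1 := Nat.lt_floor_add_one _
    linarith
  obtain ⟨Z, -, hZc⟩ := Finset.exists_subset_card_eq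
    (s := (univ : Finset (ZMod p))) (n := t) (by rw [card_univ, ZMod.card]; exact htp)
  set Θ : Finset (Pt p) := Z.image pt with hΘ
  have hΘc : Θ.card = t := by rw [hΘ, Finset.card_image_of_injective _ pt_inj, hZc]
  have haΘ : a ∉ Θ := by
    rw [hΘ, mem_image]
    rintro ⟨τ, -, h⟩
    exact pt_ne_inf τ h
  set S : Set (G p) := {g | g • a ∈ Θ ∧ ∀ σ ∈ Θ, g • σ ∉ Θ} with hS
  have hfib : ∀ τ ∈ Θ, (3 / 4 : ℝ) * (p * (p - 1)) ≤
      ((univ.filter (fun g : G p => (g • a ∈ Θ ∧ ∀ σ ∈ Θ, g • σ ∉ Θ) ∧ g • a = τ)).card : ℝ) := by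
    intro τ hτ
    have h := fibre hBP Θ a haΘ τ hτ
    rw [hΘc] at h
    have h' : (((p - 1) * p : ℕ) : ℝ) ≤ (((univ.filter (fun g : G p =>
        (g • a ∈ Θ ∧ ∀ σ ∈ Θ, g • σ ∉ Θ) ∧ g • a = τ)).card
      + t * ((t - 1) * (p - 1)) : ℕ) : ℝ) := by exact_mod_cast h
    push_cast [Nat.cast_sub (by omega : 1 ≤ p), Nat.cast_sub ht1] at h'
    have h2 : (t : ℝ) * (((t : ℝ) - 1) * ((p : ℝ) - 1)) ≤ p / 4 * (p - 1) := by
      have := mul_le_mul_of_nonneg_right htt (by linarith : (0 : ℝ) ≤ (p : ℝ) - 1)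
      linarith
    nlinarith
  have hfib' : ∀ τ ∈ Θ, (3 / 4 : ℝ) * (p * (p - 1)) ≤
      ({h | h ∈ S ∧ h • a = τ}.ncard : ℝ) := by
    intro τ hτ
    have e : {h | h ∈ S ∧ h • a = τ} = ((univ.filter (fun g : G p =>
        (g • a ∈ Θ ∧ ∀ σ ∈ Θ, g • σ ∉ Θ) ∧ g • a = τ) : Finset (G p)) : Set (G p)) := by
      ext g
      simp [hS]
    rw [e, Set.ncard_coe_finset]
    exact hfib τ hτ
  refine ⟨S, ?_, ?_, ?_⟩
  · -- product-free
    intro x hx y hy hxy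
    have h1 : (x * y) • a ∈ Θ := hxy.1
    rw [mul_smul] at h1
    exact hx.2 _ hy.1 h1
  · -- size
    have hcardS : (S.ncard : ℝ) = ∑ τ ∈ Θ, ((univ.filter (fun g : G p =>
        (g • a ∈ Θ ∧ ∀ σ ∈ Θ, g • σ ∉ Θ) ∧ g • a = τ)).card : ℝ) := by
      have e : S = ((univ.filter (fun g : G p => g • a ∈ Θ ∧ ∀ σ ∈ Θ, g • σ ∉ Θ) :
          Finset (G p)) : Set (G p)) := by
        ext g
        simp [hS]
      rw [e, Set.ncard_coe_finset, Finset.card_eq_sum_card_fiberwise (f := fun g : G p => g • a)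
        (t := Θ) (fun g hg => (mem_filter.mp hg).2.1)]
      push_cast
      refine Finset.sum_congr rfl fun τ _ => ?_
      rw [Finset.filter_filter]
    have hlow : (t : ℝ) * ((3 / 4 : ℝ) * (p * (p - 1))) ≤ S.ncard := by
      rw [hcardS]
      have := Finset.card_nsmul_le_sum Θ (fun τ => ((univ.filter (fun g : G p =>
        (g • a ∈ Θ ∧ ∀ σ ∈ Θ, g • σ ∉ Θ) ∧ g • a = τ)).card : ℝ)) _ hfib
      rwa [nsmul_eq_mul, hΘc] at this
    have hn : ((p * (p ^ 2 - 1) : ℕ) : ℝ) ^ (5 / 6 : ℝ) ≤ Real.sqrt p * (p : ℝ) ^ 2 := by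
      have h1 : ((p * (p ^ 2 - 1) : ℕ) : ℝ) ≤ (p : ℝ) ^ (3 : ℝ) := by
        have : p * (p ^ 2 - 1) ≤ p ^ 3 := by
          calc p * (p ^ 2 - 1) ≤ p * p ^ 2 := Nat.mul_le_mul_left _ (Nat.sub_le _ _)
            _ = p ^ 3 := by ring
        have h2 : ((p * (p ^ 2 - 1) : ℕ) : ℝ) ≤ ((p ^ 3 : ℕ) : ℝ) := by exact_mod_cast this
        refine h2.trans (le_of_eq ?_)
        push_cast
        rw [← Real.rpow_natCast]
        norm_num
      calc ((p * (p ^ 2 - 1) : ℕ) : ℝ) ^ (5 / 6 : ℝ) ≤ ((p : ℝ) ^ (3 : ℝ)) ^ (5 / 6 : ℝ) :=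
            Real.rpow_le_rpow (by positivity) h1 (by norm_num)
        _ = (p : ℝ) ^ (1 / 2 + 2 : ℝ) := by
            rw [← Real.rpow_mul (by positivity)]
            norm_num
        _ = Real.sqrt p * (p : ℝ) ^ 2 := by
            rw [Real.rpow_add (by linarith), ← Real.sqrt_eq_rpow]
            norm_num
    have h5 : Real.sqrt p * (p : ℝ) ^ 2 / 20 ≤ (t : ℝ) * ((3 / 4 : ℝ) * (p * (p - 1))) := by
      have h6 : (p : ℝ) * p / 2 ≤ p * (p - 1) := by nlinarith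
      have h7 : Real.sqrt p / 4 * ((3 / 4 : ℝ) * ((p : ℝ) * p / 2)) ≤
          (t : ℝ) * ((3 / 4 : ℝ) * (p * (p - 1))) := by
        apply mul_le_mul ht4 _ (by positivity) (by positivity)
        linarith
      have h8 : 0 ≤ Real.sqrt p * (p : ℝ) ^ 2 := by positivity
      nlinarith
    linarith
  · intro g hg
    exact ⟨a, hfib' (g • a) hg.1⟩

end Pool.Agent.Helper67.EC
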